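import Pool.Agent.PermClos.Lib

/-!
# Real closure = strong 2-closure, with the definitions of the problem, and over other fields

The definitions (`act`, `FClosure`, `pairOrbit`, `StrongTwoClosure`, `Aniso`) are in
`Pool/Agent/PermClos/Lib.lean`.
-/

set_option autoImplicit false

universe u v

namespace Pool.Agent.Results.MP_bfcf3a_al.AllFields

open Pool.Agent.PermClos

/-- (1) For every finite `Ω` with at least 3 points and every `G ≤ Sym(Ω)` the `ℝ`-closure of `G` is the
strong 2-closure of `G`.  (2) The same over every field `F` in which a sum of squares vanishes only if all the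
terms vanish and in which the characteristic polynomial of every symmetric matrix splits.  (3) Over every field
`F` in which a sum of squares vanishes only if all the terms vanish, the strong 2-closure is contained in the
`F`-closure. -/
theorem result :
    (∀ (Ω : Type v) [Finite Ω], 3 ≤ Nat.card Ω → ∀ G : Subgroup (Equiv.Perm Ω),
      FClosure ℝ G = StrongTwoClosure G) ∧
    (∀ (F : Type u) [Field F], Aniso F →
      (∀ (n : ℕ) (M : Matrix (Fin n) (Fin n) F), M.transpose = M → M.charpoly.Splits) →
      ∀ (Ω : Type v) [Finite Ω], 3 ≤ Nat.card Ω → ∀ G : Subgroup (Equiv.Perm Ω),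
        FClosure F G = StrongTwoClosure G) ∧
    (∀ (F : Type u) [Field F], Aniso F →
      ∀ (Ω : Type v) [Finite Ω], 3 ≤ Nat.card Ω → ∀ G : Subgroup (Equiv.Perm Ω),
        StrongTwoClosure G ⊆ FClosure F G) := by
  refine ⟨fun Ω _ h G => ?_, fun F _ hF hs Ω _ h G => ?_, fun F _ hF Ω _ h G => ?_⟩
  · exact closure_eq ℝ (aniso_of_ordered ℝ) real_splits Ω h G
  · exact closure_eq F hF hs Ω h G
  · exact strong_sub F hF Ω h G

end Pool.Agent.Results.MP_bfcf3a_al.AllFields
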